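import Pool.Agent.GEN.StmtsPT

/-!
# Squad GEN, block PT, row CTR: contraction
-/

set_option autoImplicit false

namespace Pool.Agent.GEN.H41

open Finset Pool.Agent.Helper6_Mono Pool.Agent.Helper30_Simp Pool.Agent.Helper30_Simp2
  Pool.Agent.GEN Pool.Agent.GEN.PT
open scoped Classical

theorem dl_add {E V : Type} [AddCommGroup V] (x y : List E → V) (l : List E) :
    dl (fun l => x l + y l) l = dl x l + dl y l := by
  unfold dl
  simp only [smul_add, Finset.sum_add_distrib]

theorem dl_sub {E V : Type} [AddCommGroup V] (x y : List E → V) (l : List E) :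
    dl (fun l => x l - y l) l = dl x l - dl y l := by
  unfold dl
  simp only [smul_sub, Finset.sum_sub_distrib]

theorem ctrRow (h1 : DlxStmt) (h2 : HmxStmt) : CtrStmt := by
  intro E g₁ g₂ g₃ κ
  refine ⟨?_, ?_, ?_⟩
  · intro V _ x l
    have hd := h1 E V
    have hm' : ∀ g h : E → E, dl (hm g h x) l + hm g h (dl x) l = x (l.map h) - x (l.map g) :=
      fun g h => (h2 E V g h).2.2.1 x l
    have e1 : dl (ctr g₁ g₂ g₃ κ x) l = dl (fun l' => x (κ :: l'.map fun _ => κ)) l +
        dl (hm (fun _ => κ) g₃ x) l - dl (hm g₂ g₃ x) l + dl (hm g₂ g₁ x) l -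
        dl (hm id g₁ x) l := by
      unfold ctr
      rw [dl_sub, dl_add, dl_sub, dl_add]
    have e2 : dl (fun l' => x (κ :: l'.map fun _ => κ)) l =
        dl (fun l' => x (κ :: l')) (l.map fun _ => κ) :=
      hd.2.2.2.1 (fun _ => κ) (fun l' => x (κ :: l')) l
    have e3 : dl x (κ :: l.map fun _ => κ) = x (l.map fun _ => κ) -
        dl (fun l' => x (κ :: l')) (l.map fun _ => κ) := hd.2.1 x κ _
    have e4 : ctr g₁ g₂ g₃ κ (dl x) l = dl x (κ :: l.map fun _ => κ) +
        hm (fun _ => κ) g₃ (dl x) l - hm g₂ g₃ (dl x) l + hm g₂ g₁ (dl x) l -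
        hm id g₁ (dl x) l := rfl
    have k1 := hm' (fun _ => κ) g₃
    have k2 := hm' g₂ g₃
    have k3 := hm' g₂ g₁
    have k4 := hm' id g₁
    rw [List.map_id] at k4
    rw [e1, e4, e2, e3]
    have k1' := eq_sub_of_add_eq k1
    have k2' := eq_sub_of_add_eq k2
    have k3' := eq_sub_of_add_eq k3
    have k4' := eq_sub_of_add_eq k4
    rw [k1', k2', k3', k4']
    abel
  · intro V V' _ _ φ x l
    have hm' : ∀ g h : E → E, φ (hm g h x l) = hm g h (fun l' => φ (x l')) l :=
      fun g h => (h2 E V g h).2.2.2 V' φ x l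
    unfold ctr
    rw [map_sub, map_add, map_sub, map_add, hm', hm', hm', hm']
  · intro le P hrefl htrans hκ hP hmono V _ x n hx l hln hpw hlP
    have key : ∀ g h : E → E, (∀ a, P a → P (g a) ∧ P (h a) ∧ le (g a) (h a)) →
        (∀ a b, P a → P b → le a b → le (g a) (g b) ∧ le (h a) (h b)) → hm g h x l = 0 := by
      intro g h hgh hgm
      unfold hm
      refine Finset.sum_eq_zero fun i hi => ?_
      rw [Finset.mem_range] at hi
      rw [hx, smul_zero]
      · rw [List.length_append, List.length_map, List.length_map, List.length_take,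
          List.length_drop]
        omega
      · rw [List.pairwise_append]
        refine ⟨?_, ?_, ?_⟩
        · rw [List.pairwise_map]
          have h3 : (l.take (i + 1)).Pairwise le := hpw.sublist (List.take_sublist _ _)
          refine h3.imp_of_mem ?_
          intro a b ha hb hab
          exact (hgm a b (hlP a (List.mem_of_mem_take ha)) (hlP b (List.mem_of_mem_take hb))
            hab).1
        · rw [List.pairwise_map]
          have h3 : (l.drop i).Pairwise le := hpw.sublist (List.drop_sublist _ _)
          refine h3.imp_of_mem ?_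
          intro a b ha hb hab
          exact (hgm a b (hlP a (List.mem_of_mem_drop ha)) (hlP b (List.mem_of_mem_drop hb))
            hab).2
        · intro a ha b hb
          rw [List.mem_map] at ha hb
          obtain ⟨a', ha', rfl⟩ := ha
          obtain ⟨b', hb', rfl⟩ := hb
          have hPa := hlP a' (List.mem_of_mem_take ha')
          have hPb := hlP b' (List.mem_of_mem_drop hb')
          have hab : le a' b' := by
            rw [List.mem_take_iff_getElem] at ha'
            rw [List.mem_drop_iff_getElem] at hb'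
            obtain ⟨j, hj, rfl⟩ := ha'
            obtain ⟨j', hj', rfl⟩ := hb'
            by_cases hjj : j = i + j'
            · subst hjj
              exact hrefl _ hPb
            · rw [List.pairwise_iff_getElem] at hpw
              exact hpw j (i + j') _ _ (by omega)
          exact htrans _ _ _ (hgh a' hPa).1 (hgh b' hPb).1 (hgh b' hPb).2.1
            (hgm a' b' hPa hPb hab).1 (hgh b' hPb).2.2
      · intro e he
        rw [List.mem_append, List.mem_map, List.mem_map] at he
        rcases he with ⟨a, ha, rfl⟩ | ⟨a, ha, rfl⟩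
        · exact (hgh a (hlP a (List.mem_of_mem_take ha))).1
        · exact (hgh a (hlP a (List.mem_of_mem_drop ha))).2.1
    have t1 : x (κ :: l.map fun _ => κ) = 0 := by
      refine hx _ (by rw [List.length_cons, List.length_map, hln]) ?_ ?_
      · rw [List.pairwise_cons]
        refine ⟨?_, ?_⟩
        · intro b hb
          rw [List.mem_map] at hb
          obtain ⟨_, _, rfl⟩ := hb
          exact hrefl κ hκ
        · rw [List.pairwise_map]
          exact hpw.imp fun _ => hrefl κ hκ
      · intro e he
        rw [List.mem_cons, List.mem_map] at he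
        rcases he with rfl | ⟨_, _, rfl⟩
        · exact hκ
        · exact hκ
    have t2 : hm (fun _ => κ) g₃ x l = 0 := key _ _
      (fun a ha => ⟨hκ, (hP a ha).2.2.1, (hP a ha).2.2.2.2.2.2⟩)
      (fun a b ha hb hab => ⟨hrefl κ hκ, (hmono a b ha hb hab).2.2⟩)
    have t3 : hm g₂ g₃ x l = 0 := key _ _
      (fun a ha => ⟨(hP a ha).2.1, (hP a ha).2.2.1, (hP a ha).2.2.2.2.2.1⟩)
      (fun a b ha hb hab => ⟨(hmono a b ha hb hab).2.1, (hmono a b ha hb hab).2.2⟩)
    have t4 : hm g₂ g₁ x l = 0 := key _ _
      (fun a ha => ⟨(hP a ha).2.1, (hP a ha).1, (hP a ha).2.2.2.2.1⟩)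
      (fun a b ha hb hab => ⟨(hmono a b ha hb hab).2.1, (hmono a b ha hb hab).1⟩)
    have t5 : hm id g₁ x l = 0 := key _ _
      (fun a ha => ⟨ha, (hP a ha).1, (hP a ha).2.2.2.1⟩)
      (fun a b ha hb hab => ⟨hab, (hmono a b ha hb hab).1⟩)
    unfold ctr
    rw [t1, t2, t3, t4, t5]
    simp

end Pool.Agent.GEN.H41
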