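import Pool.Agent.GEN.StmtsPT
import Pool.Agent.Helper73_Simp2.Zalg

/-!
# Squad GEN, block PT, row FCT: geometry of the flat cone
-/

set_option autoImplicit false

namespace Pool.Agent.GEN.H41

open Finset Pool.Agent.Helper6_Mono Pool.Agent.Helper30_Simp Pool.Agent.Helper30_Simp2
  Pool.Agent.GEN Pool.Agent.GEN.PT
open scoped Classical

section fct

variable {σ : Type} [Fintype σ] {M : Finset (σ →₀ ℕ)}

theorem mem_fR {R : Finset (Wa M)} {T : Finset (Wa M)} :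
    T ∈ fR M R ↔ ∃ u N, (u ≠ 0 ∨ N ≠ 0) ∧ InK M R u N ∧ ∀ ρ, ρ ∈ T ↔ slk M u N ρ = 0 := by
  unfold fR
  rw [Finset.mem_filter]
  exact ⟨fun h => h.2, fun h => ⟨Finset.mem_univ _, h⟩⟩

theorem mem_wT {T : Finset (Wa M)} {Q : Finset σ} :
    Q ∈ wT M T ↔ Wst (monT M T) (fun j => Sum.inl j ∉ T) Q := by
  unfold wT
  rw [Finset.mem_filter]
  exact ⟨fun h => h.2, fun h => ⟨Finset.mem_univ _, h⟩⟩

omit [Fintype σ] in
theorem mem_monT {T : Finset (Wa M)} {α : σ →₀ ℕ} :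
    α ∈ monT M T ↔ ∃ h : α ∈ M, Sum.inr ⟨α, h⟩ ∈ T := by
  unfold monT
  rw [Finset.mem_filter]
  exact ⟨fun h => h.2, fun h => ⟨h.1, h⟩⟩

omit [Fintype σ] in
theorem monT_mono {T T' : Finset (Wa M)} (h : T' ⊆ T) : monT M T' ⊆ monT M T := by
  intro α hα
  obtain ⟨h1, h2⟩ := mem_monT.mp hα
  exact mem_monT.mpr ⟨h1, h h2⟩

/-- every variable of positive weight occurs in the face -/
theorem occ {x : ℚ} {R : Finset (Wa M)} (hf : Flat M x R) {T' : Finset (Wa M)}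
    (hT : T' ∈ fR M R) (j : σ) (hj : Sum.inl j ∉ T') : ∃ α ∈ monT M T', α j ≠ 0 := by
  by_contra hcon
  push Not at hcon
  obtain ⟨u, N, _, hK, hT2⟩ := mem_fR.mp hT
  have huj : u j ≠ 0 := by
    intro h
    apply hj
    rw [hT2]
    show ((u j : ℕ) : ℤ) = 0
    rw [h]; rfl
  obtain ⟨e, he⟩ : ∃ e : σ → ℕ, e = fun i => if i = j then 1 else 0 := ⟨_, rfl⟩
  have hdot : ∀ α : σ →₀ ℕ, dot e α = α j := by
    intro α
    unfold dot
    rw [he, Finset.sum_eq_single j]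
    · simp
    · intro i _ hi; simp [hi]
    · intro h; exact absurd (Finset.mem_univ j) h
  have hslk : ∀ ρ, slk M (u + e) N ρ = slk M u N ρ + slk M e 0 ρ := by
    intro ρ
    have := H73.slk_add (M := M) u e N 0 ρ
    rwa [add_zero] at this
  have hnn : ∀ ρ, 0 ≤ slk M e 0 ρ := by
    rintro (i | α)
    · show (0 : ℤ) ≤ ((e i : ℕ) : ℤ)
      positivity
    · show (0 : ℤ) ≤ ((dot e (α : σ →₀ ℕ) : ℕ) : ℤ) - ((0 : ℕ) : ℤ)
      push_cast
      rw [sub_zero]; positivity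
  have hK2 : InK M R (u + e) N := by
    refine ⟨fun ρ => by rw [hslk]; exact add_nonneg (hK.1 ρ) (hnn ρ), ?_⟩
    intro ρ hρ
    have h0 := hK.2 ρ hρ
    have hρT : ρ ∈ T' := (hT2 ρ).mpr h0
    rw [hslk, h0, zero_add]
    rcases ρ with i | α
    · have hij : i ≠ j := by
        rintro rfl; exact hj hρT
      show ((e i : ℕ) : ℤ) = 0
      rw [he]
      simp [hij]
    · have h3 : (α : σ →₀ ℕ) j = 0 := hcon α (mem_monT.mpr ⟨α.2, hρT⟩)
      show ((dot e (α : σ →₀ ℕ) : ℕ) : ℤ) - ((0 : ℕ) : ℤ) = 0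
      rw [hdot, h3]
      rfl
  have h1 := hf u N hK
  have h2 := hf (u + e) N hK2
  have h3 : (∑ i, (u + e) i) = (∑ i, u i) + 1 := by
    simp only [Pi.add_apply, Finset.sum_add_distrib]
    rw [he]
    simp
  rw [h3] at h2
  push_cast at h1 h2
  linarith

theorem fct (wcb : WcbStmt) : FctStmt := by
  intro σ _ M hM x R hf hiso
  refine ⟨⟨?_, ?_, ?_⟩, ?_⟩
  · intro T hT T' hT'
    obtain ⟨u, N, h0, hK, h1⟩ := mem_fR.mp hT
    obtain ⟨u', N', h0', hK', h1'⟩ := mem_fR.mp hT'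
    refine mem_fR.mpr ⟨u + u', N + N', ?_, H73.inK_add hK hK', ?_⟩
    · rcases h0 with h | h
      · left
        intro h2
        apply h
        funext i
        have := congrFun h2 i
        simp only [Pi.add_apply, Pi.zero_apply] at this
        show u i = 0
        omega
      · right; omega
    · intro ρ
      refine Iff.trans (@Finset.mem_inter _ (fun a b => Classical.propDecidable (a = b)) ρ T T') ?_
      rw [h1, h1', H73.slk_add]
      have h2 := hK.1 ρ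
      have h3 := hK'.1 ρ
      constructor
      · rintro ⟨h4, h5⟩; omega
      · intro h4; constructor <;> omega
  · intro T hT T' hT' hsub Q hQ
    obtain ⟨hQ1, hQ2, K, hKQ, hK⟩ := mem_wT.mp hQ
    have hmm := monT_mono hsub
    have hQ1' : ∀ j ∈ Q, Sum.inl j ∉ T' := fun j hj h => hQ1 j hj (hsub h)
    have hocc : ∀ j ∈ Q, ∀ S : Finset σ, j ∈ S → (∀ α ∈ monT M T', ∑ j ∈ S, α j ≤ 1) →
        ∃ α ∈ monT M T', α j = 1 := by
      intro j hj S hjS hS
      obtain ⟨α, hα, hαj⟩ := occ hf hT' j (hQ1' j hj)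
      refine ⟨α, hα, ?_⟩
      have h5 := Finset.single_le_sum (f := fun j => α j) (fun _ _ => Nat.zero_le _) hjS
      have h6 := hS α hα
      have h7 : α j ≤ 1 := h5.trans h6
      omega
    have hsQ : ∀ α ∈ monT M T', ∑ j ∈ Q, α j ≤ 1 := fun α hα => hQ2.2.1 α (hmm hα)
    have hsK : ∀ α ∈ monT M T', ∑ j ∈ K, α j ≤ 1 := fun α hα => hK.1.2.1 α (hmm hα)
    refine mem_wT.mpr ⟨hQ1', ⟨hQ2.1, hsQ, fun j hj => hocc j hj Q hj hsQ⟩, K, hKQ,
      ⟨hK.1.1, hsK, fun j hj => hocc j (hKQ hj) K hj hsK⟩, ?_⟩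
    refine lt_of_le_of_lt (Submodule.finrank_mono ?_) hK.2
    unfold VK
    refine Submodule.span_mono ?_
    rintro v ⟨j, hj, α, hα, β, hβ, h1, h2, h3⟩
    exact ⟨j, hj, α, hmm hα, β, hmm hβ, h1, h2, h3⟩
  · intro T hT
    obtain ⟨u, N, h0, hK, h1⟩ := mem_fR.mp hT
    have hu : u ≠ 0 := by
      rintro rfl
      obtain ⟨α, hα⟩ := hM
      have h2 := hK.1 (Sum.inr ⟨α, hα⟩)
      simp only [slk, H73.dot_zero] at h2
      rcases h0 with h | h
      · exact h rfl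
      · omega
    obtain ⟨κ, hκ1, hκ2, hκ3⟩ := hiso u N ⟨hu, R, hf, hK⟩
    have e1 : fce M u = monT M T := by
      ext α
      rw [mem_monT]
      unfold fce
      rw [Finset.mem_filter]
      constructor
      · rintro ⟨h2, h3⟩
        exact ⟨h2, (h1 _).mpr ((H73.face_iff hf hK hu ⟨α, h2⟩).mp h3)⟩
      · rintro ⟨h2, h3⟩
        exact ⟨h2, (H73.face_iff hf hK hu ⟨α, h2⟩).mpr ((h1 _).mp h3)⟩
    have e2 : (fun j => u j ≠ 0) = fun j => (Sum.inl j : Wa M) ∉ T := by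
      funext j
      apply propext
      rw [h1]
      show u j ≠ 0 ↔ ¬ ((u j : ℕ) : ℤ) = 0
      rw [Nat.cast_eq_zero]
    have e3 : ∀ j ∈ κ, (Sum.inl j : Wa M) ∉ T := by
      intro j hj
      have := hκ1 j hj
      have h4 := congrFun e2 j
      rw [h4] at this
      exact this
    rw [e1] at hκ2 hκ3
    rw [e2] at hκ3
    obtain ⟨a, b, h5, h6⟩ := wcb σ (monT M T) (fun j => (Sum.inl j : Wa M) ∉ T) κ e3 hκ2 hκ3
    refine ⟨a, b, κ, mem_wT.mpr ⟨e3, hκ2.1, κ, le_refl _, hκ2⟩, ?_, ?_⟩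
    · intro Q hQ
      obtain ⟨h7, h8, h9, h10, h11⟩ := h5 Q (mem_wT.mp hQ)
      exact ⟨mem_wT.mpr h7, mem_wT.mpr h8, h9, h10, h11⟩
    · intro Q _ Q' _ h
      exact h6 Q Q' h
  · intro S hS u N hK
    by_contra hcon
    have h0 : u ≠ 0 ∨ N ≠ 0 := by
      by_contra h
      push Not at h
      exact hcon h
    have hKR : InK M R u N := ⟨hK.1, fun ρ hρ => hK.2 ρ (Finset.mem_union_left _ hρ)⟩
    refine hS (univ.filter fun ρ => slk M u N ρ = 0)
      (mem_fR.mpr ⟨u, N, h0, hKR, fun ρ => ?_⟩) ?_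
    · rw [Finset.mem_filter]
      exact ⟨fun h => h.2, fun h => ⟨Finset.mem_univ _, h⟩⟩
    · intro ρ hρ
      rw [Finset.mem_filter]
      exact ⟨Finset.mem_univ _, hK.2 ρ (Finset.mem_union_right _ hρ)⟩

end fct

end Pool.Agent.GEN.H41
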