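import Pool.Agent.GEN.StmtsU

/-! Row INJ of squad GEN. -/

set_option autoImplicit false

namespace Pool.Agent.GEN.H41

open MvPolynomial

theorem map_smul_poly {Y A K : Type} [CommRing A] [CommRing K] (φ : A →+* K) (a : A)
    (p : MvPolynomial Y A) : map φ (a • p) = φ a • map φ p := by
  rw [smul_eq_C_mul, map_mul, map_C, smul_eq_C_mul]

theorem inj : InjStmt := by
  intro σ A K _ _ φ F h c hExt hφ R hR RK hRK T hT
  classical
  have hr : ∀ j : JA F c, ∃ r : Sm σ A, ∃ n₀ : ℕ, ∀ n ≥ n₀,
      act (n : A) (pw F c n) (j : Sm σ A) = act (n : A) (pw F (c + 1) n) r := fun j => j.2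
  choose r hrr using hr
  have hwd : ∀ (r1 r2 : Sm σ A), (∃ n₀ : ℕ, ∀ n ≥ n₀, act (n : A) (pw F (c + 1) n) r1
      = act (n : A) (pw F (c + 1) n) r2) →
      (Submodule.Quotient.mk (map φ r1) : Sm σ K ⧸ spn φ (UU F (c + 1)))
        = Submodule.Quotient.mk (map φ r2) := by
    rintro r1 r2 ⟨n0, hn⟩
    rw [Submodule.Quotient.eq, ← map_sub]
    exact Submodule.subset_span ⟨r1 - r2, ⟨n0, fun n hn' => by rw [map_sub, hn n hn', sub_self]⟩,
      rfl⟩
  let g : JA F c →ₛₗ[φ] (Sm σ K ⧸ spn φ (UU F (c + 1))) :=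
    { toFun := fun j => Submodule.Quotient.mk (map φ (r j))
      map_add' := by
        intro j j'
        rw [← Submodule.Quotient.mk_add, ← map_add]
        apply hwd
        obtain ⟨a, ha⟩ := hrr j
        obtain ⟨b, hb⟩ := hrr j'
        obtain ⟨d, hd⟩ := hrr (j + j')
        refine ⟨max (max a b) d, fun n hn => ?_⟩
        rw [← hd n (le_trans (le_max_right _ _) hn), map_add,
          ← ha n (le_trans (le_trans (le_max_left _ _) (le_max_left _ _)) hn),
          ← hb n (le_trans (le_trans (le_max_right _ _) (le_max_left _ _)) hn),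
          Submodule.coe_add, map_add]
      map_smul' := by
        intro a j
        rw [← Submodule.Quotient.mk_smul, ← map_smul_poly]
        apply hwd
        obtain ⟨b, hb⟩ := hrr j
        obtain ⟨d, hd⟩ := hrr (a • j)
        refine ⟨max b d, fun n hn => ?_⟩
        rw [← hd n (le_trans (le_max_right _ _) hn), map_smul,
          ← hb n (le_trans (le_max_left _ _) hn), Submodule.coe_smul, map_smul] }
  have hg : ∀ j : JA F c, g j = Submodule.Quotient.mk (map φ (r j)) := fun j => rfl
  obtain ⟨g', hg'⟩ := hExt K φ hφ _ g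
  have h1 : ∀ u ∈ UU F c, g' u = 0 := by
    intro u hu
    obtain ⟨a, ha⟩ := hu
    have hu' : u ∈ JA F c := ⟨0, a, fun n hn => by rw [ha n hn, map_zero]⟩
    have h2 := hg' ⟨u, hu'⟩
    rw [hg] at h2
    rw [show g' u = Submodule.Quotient.mk (map φ (r ⟨u, hu'⟩)) from h2]
    have h3 := hwd (r ⟨u, hu'⟩) 0 (by
      obtain ⟨b, hb⟩ := hrr ⟨u, hu'⟩
      refine ⟨max a b, fun n hn => ?_⟩
      rw [← hb n (le_trans (le_max_right _ _) hn), map_zero]
      exact ha n (le_trans (le_max_left _ _) hn))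
    rw [h3, map_zero]
    rfl
  have h2 : ∀ p : Sm σ A, g' (R p) = Submodule.Quotient.mk (map φ p) := by
    intro p
    have hp : ∀ n : ℕ, (-c).toNat ≤ n → act (n : A) (pw F c n) (R p)
        = act (n : A) (pw F (c + 1) n) p := by
      intro n hn
      rw [hR]
      congr 2
      rw [pw, pw, ← pow_succ']
      congr 1
      omega
    have hp' : R p ∈ JA F c := ⟨p, (-c).toNat, hp⟩
    have h3 := hg' ⟨R p, hp'⟩
    rw [hg] at h3
    rw [show g' (R p) = Submodule.Quotient.mk (map φ (r ⟨R p, hp'⟩)) from h3]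
    apply hwd
    obtain ⟨b, hb⟩ := hrr ⟨R p, hp'⟩
    refine ⟨max (-c).toNat b, fun n hn => ?_⟩
    rw [← hb n (le_trans (le_max_right _ _) hn)]
    exact hp n (le_trans (le_max_left _ _) hn)
  obtain ⟨G, hG⟩ : ∃ G : Sm σ K →ₗ[K] (Sm σ K ⧸ spn φ (UU F (c + 1))),
      ∀ m, G (monomial m 1) = g' (monomial m 1) := by
    refine ⟨(basisMonomials (SY σ) K).constr K fun m => g' (monomial m 1), fun m => ?_⟩
    have h3 := (basisMonomials (SY σ) K).constr_basis K (fun m => g' (monomial m 1)) m
    rwa [coe_basisMonomials] at h3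
  have hGm : ∀ p : Sm σ A, G (map φ p) = g' p := by
    intro p
    induction p using MvPolynomial.induction_on' with
    | monomial m a =>
      have e1 : (monomial m (φ a) : Sm σ K) = φ a • monomial m 1 := by
        rw [smul_monomial, smul_eq_mul, mul_one]
      have e2 : (monomial m a : Sm σ A) = a • monomial m 1 := by
        rw [smul_monomial, smul_eq_mul, mul_one]
      rw [map_monomial, e1, map_smul, hG, e2, map_smulₛₗ]
    | add p q hp hq => rw [map_add, map_add, map_add, hp, hq]
  have hker : spn φ (UU F c) ≤ LinearMap.ker G := by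
    rw [spn, Submodule.span_le]
    rintro _ ⟨u, hu, rfl⟩
    show G (map φ u) = 0
    rw [hGm, h1 u hu]
  have hcomp : G ∘ₗ RK = (spn φ (UU F (c + 1))).mkQ := by
    refine (basisMonomials (SY σ) K).ext fun m => ?_
    rw [coe_basisMonomials]
    have e3 : (monomial m (1 : K) : Sm σ K) = map φ (monomial m 1) := by
      rw [map_monomial, φ.map_one]
    show G (RK (monomial m 1)) = (spn φ (UU F (c + 1))).mkQ (monomial m 1)
    rw [e3, hRK, hGm, h2]
    rfl
  have h4 : (spn φ (UU F (c + 1))).mkQ T = 0 := by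
    rw [← hcomp]
    exact hker hT
  rwa [Submodule.mkQ_apply, Submodule.Quotient.mk_eq_zero] at h4

end Pool.Agent.GEN.H41
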