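import Pool.Agent.GEN.StmtsPT

/-!
# Squad GEN, block PT, row PAU: the patching theorem in the original variables
-/

set_option autoImplicit false

namespace Pool.Agent.GEN.H41

open Finset Pool.Agent.Helper6_Mono Pool.Agent.Helper30_Simp Pool.Agent.Helper30_Simp2
  Pool.Agent.GEN Pool.Agent.GEN.PT
open scoped Classical

section pau

variable {Λ D A : Type} [CommRing A]

/-- the automorphism `X ↦ 1 - X` -/
noncomputable def fl : MvPolynomial Λ A →ₐ[A] MvPolynomial Λ A :=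
  MvPolynomial.aeval fun ρ => 1 - MvPolynomial.X ρ

theorem fl_X (ρ : Λ) : fl (MvPolynomial.X ρ : MvPolynomial Λ A) = 1 - MvPolynomial.X ρ := by
  unfold fl; rw [MvPolynomial.aeval_X]

theorem fl_fl (p : MvPolynomial Λ A) : fl (fl p) = p := by
  have h : (fl.comp fl : MvPolynomial Λ A →ₐ[A] MvPolynomial Λ A) = AlgHom.id A _ := by
    refine MvPolynomial.algHom_ext fun ρ => ?_
    rw [AlgHom.comp_apply, fl_X, map_sub, map_one, fl_X, AlgHom.id_apply]
    ring
  exact DFunLike.congr_fun h p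

theorem res_X (T : Finset Λ) (ρ : Λ) :
    res T (MvPolynomial.X ρ : MvPolynomial Λ A) = if ρ ∈ T then MvPolynomial.X ρ else 0 := by
  unfold res; rw [MvPolynomial.aeval_X]

theorem sub_res_mem (T : Finset Λ) (p : MvPolynomial Λ A) :
    p - res T p ∈ Ideal.span {q : MvPolynomial Λ A | ∃ ρ, ρ ∉ T ∧ q = MvPolynomial.X ρ} := by
  obtain ⟨I, hI⟩ : ∃ I : Ideal (MvPolynomial Λ A),
    I = Ideal.span {q : MvPolynomial Λ A | ∃ ρ, ρ ∉ T ∧ q = MvPolynomial.X ρ} := ⟨_, rfl⟩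
  rw [← hI, ← Ideal.Quotient.eq]
  have h : (Ideal.Quotient.mkₐ A I) = (Ideal.Quotient.mkₐ A I).comp (res T) := by
    refine MvPolynomial.algHom_ext fun ρ => ?_
    rw [AlgHom.comp_apply, res_X]
    by_cases hρ : ρ ∈ T
    · rw [if_pos hρ]
    · rw [if_neg hρ, map_zero]
      show Ideal.Quotient.mk I (MvPolynomial.X ρ) = 0
      rw [Ideal.Quotient.eq_zero_iff_mem, hI]
      exact Ideal.subset_span ⟨ρ, hρ, rfl⟩
  exact DFunLike.congr_fun h p

theorem fl_JT (f : D → MvPolynomial Λ A) (T : Finset Λ) (Q : Finset D) (q : MvPolynomial Λ A)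
    (hq : q ∈ JT (fun j => fl (f j)) T Q) : fl q ∈ JX f T Q := by
  have h : JT (fun j => fl (f j)) T Q ≤ (JX f T Q).comap (fl : MvPolynomial Λ A →ₐ[A] _) := by
    refine sup_le ?_ ?_
    · rw [Ideal.span_le]
      rintro _ ⟨j, hj, rfl⟩
      show fl (fl (f j)) ∈ JX f T Q
      rw [fl_fl]
      exact Ideal.mem_sup_left (Ideal.subset_span ⟨j, hj, rfl⟩)
    · intro p hp
      have hp' : res T p = 0 := hp
      have h1 := sub_res_mem T p
      rw [hp', sub_zero] at h1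
      have h2 : Ideal.span {q : MvPolynomial Λ A | ∃ ρ, ρ ∉ T ∧ q = MvPolynomial.X ρ} ≤
          (JX f T Q).comap (fl : MvPolynomial Λ A →ₐ[A] _) := by
        rw [Ideal.span_le]
        rintro _ ⟨ρ, hρ, rfl⟩
        show fl (MvPolynomial.X ρ) ∈ JX f T Q
        rw [fl_X]
        exact Ideal.mem_sup_right (Ideal.subset_span ⟨ρ, hρ, rfl⟩)
      exact h2 h1
  exact h hq

theorem fl_JX (f : D → MvPolynomial Λ A) (T : Finset Λ) (Q : Finset D) (q : MvPolynomial Λ A)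
    (hq : q ∈ JX f T Q) : fl q ∈ JT (fun j => fl (f j)) T Q := by
  have h : JX f T Q ≤ (JT (fun j => fl (f j)) T Q).comap (fl : MvPolynomial Λ A →ₐ[A] _) := by
    refine sup_le ?_ ?_
    · rw [Ideal.span_le]
      rintro _ ⟨j, hj, rfl⟩
      exact Ideal.mem_sup_left (Ideal.subset_span ⟨j, hj, rfl⟩)
    · rw [Ideal.span_le]
      rintro _ ⟨ρ, hρ, rfl⟩
      show fl (1 - MvPolynomial.X ρ : MvPolynomial Λ A) ∈ JT (fun j => fl (f j)) T Q
      rw [map_sub, map_one, fl_X, sub_sub_cancel]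
      refine Ideal.mem_sup_right ?_
      show res T (MvPolynomial.X ρ : MvPolynomial Λ A) = 0
      rw [res_X, if_neg hρ]
  exact h hq

end pau

theorem pau (h1 : PipStmt) (h2 : PatStmt) : PauStmt := by
  intro Λ D A _ _ _ F W f P hC hreg hP a p₀ hf hS
  obtain ⟨c, hc⟩ := h2 Λ D A F W (fun j => fl (f j)) (fl P) hC
    (by
      intro T hT Q hQ Q' hQ' j hj hj' g hg
      have h3 := fl_JT f T Q' _ hg
      rw [map_mul, fl_fl] at h3
      have h4 := hreg T hT Q hQ Q' hQ' j hj hj' _ h3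
      have h5 := fl_JX f T Q' _ h4
      rwa [fl_fl] at h5)
    (fun T hT Q hQ => fl_JX f T Q P (hP T hT Q hQ))
  obtain ⟨q, hq⟩ : ∃ q, q = fl P - ∑ j, fl (f j) * c j := ⟨_, rfl⟩
  have hq2 : ∀ m ∈ q.support, ∀ T ∈ F, ¬ m.support ⊆ T := by
    refine (h1 Λ A F).2.2.2.2.2 q ?_
    intro T hT
    rw [hq]; exact hc T hT
  have hP2 : P = fl q + ∑ j, f j * fl (c j) := by
    have h3 : fl P = q + ∑ j, fl (f j) * c j := by rw [hq]; ring
    have h4 := congrArg (fl : MvPolynomial Λ A →ₐ[A] _) h3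
    rw [fl_fl, map_add, map_sum] at h4
    rw [h4]
    congr 1
    refine Finset.sum_congr rfl fun j _ => ?_
    rw [map_mul, fl_fl]
  have hq3 : fl q * p₀ ∈ a := by
    have h3 : fl q = ∑ m ∈ q.support, MvPolynomial.C (q.coeff m) *
        ∏ ρ ∈ m.support, (1 - MvPolynomial.X ρ) ^ (m ρ) := by
      unfold fl
      rw [MvPolynomial.aeval_def, MvPolynomial.eval₂_eq]
      rfl
    rw [h3, Finset.sum_mul]
    refine Ideal.sum_mem _ fun m hm => ?_
    have h4 : (∏ ρ ∈ m.support, (1 - MvPolynomial.X ρ : MvPolynomial Λ A) ^ (m ρ)) =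
        (∏ ρ ∈ m.support, (1 - MvPolynomial.X ρ)) *
          ∏ ρ ∈ m.support, (1 - MvPolynomial.X ρ) ^ (m ρ - 1) := by
      rw [← Finset.prod_mul_distrib]
      refine Finset.prod_congr rfl fun ρ hρ => ?_
      have h5 : m ρ ≠ 0 := Finsupp.mem_support_iff.mp hρ
      rw [← pow_succ', Nat.sub_add_cancel (Nat.one_le_iff_ne_zero.mpr h5)]
    rw [h4]
    have h6 := hS m.support (hq2 m hm)
    have h7 : MvPolynomial.C (q.coeff m) * ((∏ ρ ∈ m.support, (1 - MvPolynomial.X ρ)) *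
        ∏ ρ ∈ m.support, (1 - MvPolynomial.X ρ) ^ (m ρ - 1)) * p₀ =
        (MvPolynomial.C (q.coeff m) * ∏ ρ ∈ m.support, (1 - MvPolynomial.X ρ) ^ (m ρ - 1)) *
          ((∏ ρ ∈ m.support, (1 - MvPolynomial.X ρ)) * p₀) := by ring
    rw [h7]
    exact Ideal.mul_mem_left _ _ h6
  rw [hP2, add_mul, Finset.sum_mul]
  refine a.add_mem hq3 (Ideal.sum_mem _ fun j _ => ?_)
  have h8 : f j * fl (c j) * p₀ = fl (c j) * (f j * p₀) := by ring
  rw [h8]
  exact Ideal.mul_mem_left _ _ (hf j)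

end Pool.Agent.GEN.H41
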