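import Pool.Agent.GEN.StmtsU

/-! Row SHS of squad GEN. -/

set_option autoImplicit false

namespace Pool.Agent.GEN.H41

open MvPolynomial

variable {σ A : Type} [CommRing A]

/-- the algebra map with `X none ↦ X none + C c` -/
noncomputable def shf (c : A) : Sm σ A →ₐ[A] Sm σ A :=
  aeval fun y : SY σ => match y with
    | none => (X none + C c : Sm σ A)
    | some z => (X (some z) : Sm σ A)

theorem shf_none (c : A) : shf (σ := σ) c (X none) = X none + C c := by
  rw [shf, aeval_X]

theorem shf_some (c : A) (z : σ ⊕ σ) : shf c (X (some z)) = X (some z) := by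
  rw [shf, aeval_X]

theorem shf_comp (c d : A) (h : c + d = 0) :
    (shf (σ := σ) c).comp (shf d) = AlgHom.id A (Sm σ A) := by
  refine MvPolynomial.algHom_ext fun y => ?_
  rw [AlgHom.comp_apply]
  cases y with
  | none =>
    rw [shf_none, map_add, shf_none, ← algebraMap_eq, AlgHom.commutes, add_assoc, ← map_add, h,
      map_zero, add_zero]
    rfl
  | some z => rw [shf_some, shf_some]; rfl

/-- the shift of `s` -/
noncomputable def shfE (c : A) : Sm σ A ≃ₐ[A] Sm σ A :=
  AlgEquiv.ofAlgHom (shf c) (shf (-c)) (shf_comp c (-c) (add_neg_cancel c))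
    (shf_comp (-c) c (neg_add_cancel c))

theorem act_C_mul (l : A) (w : MvPolynomial σ A) (c : A) (p : Sm σ A) :
    act l w (C c * p) = C c * act l w p := by
  rw [← smul_eq_C_mul, map_smul, smul_eq_C_mul]

theorem shs (hSYC : SycStmt) : ShsStmt := by
  intro σ A _ c
  refine ⟨(shfE c).toLinearEquiv, fun l w p => ?_⟩
  show act l w (shf c p) = act (l + c) w p
  have hpow : ∀ (k : ℕ) (q : Sm σ A), act l w ((X none + C c) ^ k * q)
      = C ((l + c) ^ k) * act l w q := by
    intro k q
    induction k with
    | zero => rw [pow_zero, one_mul, pow_zero, C_1, one_mul]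
    | succ k ih =>
      have h1 : (X none + C c : Sm σ A) ^ (k + 1) * q
          = Lop none ((X none + C c) ^ k * q) + C c * ((X none + C c) ^ k * q) := by
        show _ = X none * ((X none + C c) ^ k * q) + _
        ring
      rw [h1, map_add, (hSYC σ A l w _).1, act_C_mul, ih, pow_succ, C_mul, C_add]
      ring
  induction p using MvPolynomial.induction_on' with
  | add p q hp hq => rw [map_add, map_add, map_add, hp, hq]
  | monomial m a =>
    have hm : (monomial m a : Sm σ A) = X none ^ (m none) * monomial (m.erase none) a := by
      rw [X_pow_eq_monomial, monomial_mul, one_mul, Finsupp.single_add_erase]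
    have he : shf c (monomial (m.erase none) a : Sm σ A) = monomial (m.erase none) a := by
      rw [shf, aeval_monomial, monomial_eq, algebraMap_eq]
      congr 1
      refine Finsupp.prod_congr fun y hy => ?_
      cases y with
      | none => exact absurd (Finsupp.erase_same (f := m) (a := none)) (Finsupp.mem_support_iff.mp hy)
      | some z => rfl
    have hxp : xp (m.erase none) = xp m := by
      ext i
      rw [xp_apply, xp_apply, Finsupp.erase_ne (by simp)]
    have hdp : dp (m.erase none) = dp m := by
      ext i
      rw [dp_apply, dp_apply, Finsupp.erase_ne (by simp)]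
    rw [act_monomial, hm, map_mul, map_pow, shf_none, he, hpow, act_monomial, hxp, hdp,
      Finsupp.erase_same, pow_zero, C_1, one_mul]
    ring

end Pool.Agent.GEN.H41
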