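import Pool.Agent.GEN.StmtsU

/-! Row SPO of squad GEN. -/

set_option autoImplicit false

namespace Pool.Agent.GEN.H41

open MvPolynomial Pool.Agent.Helper6_Mono Pool.Agent.Helper30_Simp Pool.Agent.Helper30_Simp2

/-- a common denominator of a polynomial -/
theorem den {σ A K : Type} [CommRing A] [IsDomain A] [Field K] [Algebra A K] [IsFractionRing A K]
    (q : MvPolynomial σ K) : ∃ (h : A) (q' : MvPolynomial σ A), h ≠ 0 ∧
      map (algebraMap A K) q' = C (algebraMap A K h) * q := by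
  classical
  induction q using MvPolynomial.induction_on' with
  | monomial m a =>
    obtain ⟨x, y, hxy⟩ := IsLocalization.exists_mk'_eq (nonZeroDivisors A) a
    refine ⟨y, monomial m x, nonZeroDivisors.ne_zero y.2, ?_⟩
    rw [map_monomial, C_mul_monomial, ← hxy, IsLocalization.mk'_spec']
  | add p q hp hq =>
    obtain ⟨h1, p', h10, hp'⟩ := hp
    obtain ⟨h2, q', h20, hq'⟩ := hq
    refine ⟨h1 * h2, C h2 * p' + C h1 * q', mul_ne_zero h10 h20, ?_⟩
    rw [map_add, map_mul, map_mul, map_C, map_C, hp', hq', map_mul, C_mul]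
    ring

theorem spo : SpoStmt := by
  intro σ A K _ _ _ _ _ _ g hg
  classical
  obtain ⟨n, hn⟩ := Ideal.mem_radical_iff.mp hg
  rw [Ideal.span_union, Submodule.mem_sup] at hn
  obtain ⟨u, hu, v, hv, huv⟩ := hn
  obtain ⟨q, rfl⟩ := Ideal.mem_span_singleton'.mp hu
  obtain ⟨r, rfl⟩ := (Ideal.mem_span_range_iff_exists_fun).mp hv
  obtain ⟨h0, q', hh0, hq'⟩ := den (A := A) q
  have hr := fun j => den (A := A) (r j)
  choose h1 r' hh1 hr' using hr
  have hmapinj : Function.Injective (map (σ := σ) (algebraMap A K)) :=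
    map_injective _ (IsFractionRing.injective A K)
  obtain ⟨D1, hD1⟩ : ∃ D1 : A, D1 = ∏ j, h1 j := ⟨_, rfl⟩
  have hD10 : D1 ≠ 0 := by rw [hD1]; exact Finset.prod_ne_zero_iff.mpr fun j _ => hh1 j
  obtain ⟨E, hE⟩ : ∃ E : σ → A, ∀ j, D1 = E j * h1 j :=
    ⟨fun j => ∏ i ∈ Finset.univ.erase j, h1 i, fun j => by
      rw [hD1, ← Finset.mul_prod_erase Finset.univ h1 (Finset.mem_univ j), mul_comm]⟩
  have hX : ∀ (k : Type) [CommRing k] (φ : A →+* k),
      map φ (∏ i : σ, X i) = ∏ i : σ, (X i : MvPolynomial σ k) := by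
    intro k _ φ
    rw [map_prod]
    exact Finset.prod_congr rfl fun i _ => map_X _ _
  have hkey : C (h0 * D1) * (∏ i, X i) ^ n
      = C D1 * q' * g + ∑ j, C (h0 * E j) * r' j * pderiv j g := by
    apply hmapinj
    have e1 : ∀ j, map (algebraMap A K) (C (h0 * E j) * r' j
        * pderiv j g) = C (algebraMap A K (h0 * D1)) * (r j
          * pderiv j (map (algebraMap A K) g)) := by
      intro j
      rw [map_mul, map_mul, map_C, hr', pderiv_map, hE j]
      simp only [map_mul]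
      ring
    have e2 : map (algebraMap A K) (C D1 * q' * g) = C (algebraMap A K (h0 * D1)) *
        (q * map (algebraMap A K) g) := by
      rw [map_mul, map_mul, map_C, hq']
      simp only [map_mul]
      ring
    rw [map_add, map_sum, Finset.sum_congr rfl fun j _ => e1 j, ← Finset.mul_sum, e2, ← mul_add,
      huv, map_mul, map_pow, hX, map_C]
  refine ⟨h0 * D1, mul_ne_zero hh0 hD10, ?_⟩
  intro k _ φ hφ
  refine Ideal.mem_radical_iff.mpr ⟨n, ?_⟩
  have h2 : C (φ (h0 * D1)) * (∏ i, X i) ^ n = map φ (C D1 * q' * g + ∑ j, C (h0 * E j) * r' j * pderiv j g) := by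
    rw [← hkey, map_mul (map φ), map_pow, hX, map_C]
  have h3 : (∏ i, X i : MvPolynomial σ k) ^ n = C (φ (h0 * D1))⁻¹ *
      (C (φ (h0 * D1)) * (∏ i, X i) ^ n) := by
    rw [← mul_assoc, ← C_mul, inv_mul_cancel₀ hφ, C_1, one_mul]
  rw [h3, h2, map_add, map_sum]
  refine Ideal.mul_mem_left _ _ (Ideal.add_mem _ ?_ (Ideal.sum_mem _ fun j _ => ?_))
  · rw [map_mul]
    exact Ideal.mul_mem_left _ _ (Ideal.subset_span (Or.inl rfl))
  · rw [map_mul, ← pderiv_map]
    exact Ideal.mul_mem_left _ _ (Ideal.subset_span (Or.inr ⟨j, rfl⟩))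

end Pool.Agent.GEN.H41
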