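import Pool.Agent.GEN.StmtsZC

/-!
# Squad GEN, row UNR: normalised relations
-/

set_option autoImplicit false

namespace Pool.Agent.GEN.H41

open PowerSeries Finset Pool.Agent.Helper6_Mono Pool.Agent.Helper30_Simp
  Pool.Agent.Helper30_Simp.H32 Pool.Agent.Helper30_Simp2 Pool.Agent.Helper30_Simp2.H63

section

variable {A : Type} [CommRing A]

theorem nrm_sum {ι : Type} (t : A) (d : ℕ) (s : Finset ι) (p : ι → Polynomial ℤ) :
    nrm t d (∑ i ∈ s, p i) = ∑ i ∈ s, nrm t d (p i) := by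
  unfold nrm
  rw [Finset.sum_comm]
  refine Finset.sum_congr rfl fun e _ => ?_
  rw [Polynomial.finsetSum_coeff, Int.cast_sum, Finset.sum_mul]

theorem nrm_shift (t : A) (e' d r : ℕ) (p : Polynomial ℤ) (hp : p.natDegree ≤ d) :
    nrm t (e' + (d + r)) (Polynomial.X ^ e' * p) = t ^ r * nrm t d p := by
  unfold nrm
  have h0 : e' + (d + r) + 1 = e' + ((d + 1) + r) := by ring
  rw [h0, Finset.sum_range_add, Finset.sum_range_add]
  have h1 : ∑ x ∈ range e', (((Polynomial.X ^ e' * p : Polynomial ℤ).coeff x : ℤ) : A) *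
      t ^ (e' + (d + r) - x) = 0 := by
    refine Finset.sum_eq_zero fun x hx => ?_
    rw [Polynomial.coeff_X_pow_mul', if_neg (by have := Finset.mem_range.1 hx; omega)]
    simp
  have h3 : ∑ x ∈ range r, (((Polynomial.X ^ e' * p : Polynomial ℤ).coeff (e' + (d + 1 + x)) : ℤ) : A) *
      t ^ (e' + (d + r) - (e' + (d + 1 + x))) = 0 := by
    refine Finset.sum_eq_zero fun x hx => ?_
    rw [Polynomial.coeff_X_pow_mul', if_pos (by omega), Nat.add_sub_cancel_left,
      Polynomial.coeff_eq_zero_of_natDegree_lt (by omega)]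
    simp
  have h2 : ∑ x ∈ range (d + 1), (((Polynomial.X ^ e' * p : Polynomial ℤ).coeff (e' + x) : ℤ) : A) *
      t ^ (e' + (d + r) - (e' + x)) =
      t ^ r * ∑ x ∈ range (d + 1), ((p.coeff x : ℤ) : A) * t ^ (d - x) := by
    rw [Finset.mul_sum]
    refine Finset.sum_congr rfl fun x hx => ?_
    have hx' := Finset.mem_range.1 hx
    rw [Polynomial.coeff_X_pow_mul', if_pos (by omega), Nat.add_sub_cancel_left]
    have h4 : e' + (d + r) - (e' + x) = r + (d - x) := by omega
    rw [h4, pow_add]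
    ring
  rw [h1, h2, h3]
  ring

theorem nrm_add_one_pow (t : A) (n : ℕ) :
    nrm t n ((Polynomial.X + 1 : Polynomial ℤ) ^ n) = (1 + t) ^ n := by
  unfold nrm
  rw [add_pow (1 : A) t n]
  refine Finset.sum_congr rfl fun e _ => ?_
  rw [Polynomial.coeff_X_add_one_pow, one_pow, one_mul, Int.cast_natCast, mul_comm]

theorem nrm_zero (t : A) (d : ℕ) : nrm t d 0 = 0 := by
  unfold nrm
  simp

end

theorem unr (dcb : DcbStmt) (rec' : RecStmt) : UnrStmt := by
  intro σ _ M J hC P hP q hq l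
  obtain ⟨hdeg, -, -⟩ := (rec' σ M J).2 P hP
  apply hC
  intro I hI hR
  obtain ⟨hDJ, hKS⟩ := Kc_spec hR
  have h1 := hP I hI l
  rw [if_pos hR] at h1
  obtain ⟨⟨hDne, -, hD1⟩, -⟩ := hKS
  obtain ⟨b1, b2, -, -, -⟩ := dcb σ I J
  have hocc : ∀ j ∈ Kc I J, ∃ α ∈ I, α j ≠ 0 := by
    intro j hj
    obtain ⟨α, hα, h⟩ := hD1 j hj
    exact ⟨α, hα, by omega⟩
  have hc1 : 1 ≤ (Kc I J).card := Finset.card_pos.2 hDne
  obtain ⟨t, ht⟩ : ∃ t : ℤ⟦X⟧, t = X * q := ⟨_, rfl⟩
  have ht1 : (1 - X) * t = X := by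
    rw [ht, mul_left_comm, hq, mul_one]
  have ht2 : (1 - X) * (1 + t) = 1 := by
    rw [mul_add, ht1]
    ring
  rw [← ht]
  generalize hD : Kc I J = D at *
  -- apply `nrm` to the equation
  have h2 := congrArg (nrm t (dd I J)) h1
  rw [nrm_sum] at h2
  have hDd : D.card ≤ dd I J := by
    have := (b1 D D hocc hDJ (Finset.Subset.refl _)).2
    exact this
  have h3 : ∀ K' ∈ D.powerset, nrm t (dd I J) (Polynomial.X ^ gex I J D K' * P (keep I D K') l) =
      t ^ (D.card - K'.card) * nrm t (dd (keep I D K') J) (P (keep I D K') l) := by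
    intro K' hK'
    have hK := Finset.mem_powerset.1 hK'
    have h4 := (b1 D K' hocc hDJ hK).1
    have h5 : K'.card ≤ D.card := Finset.card_le_card hK
    have h6 : dd I J = gex I J D K' + (dd (keep I D K') J + (D.card - K'.card)) := by
      unfold gex
      omega
    rw [h6]
    exact nrm_shift t _ _ _ _ (hdeg _ ((b2 D K').1.trans hI) l)
  rw [Finset.sum_congr rfl h3] at h2
  have h7 : ∀ K' ∈ D.powerset, (1 - X) ^ K'.card * X ^ (D.card - K'.card) *
      nrm t (dd (keep I D K') J) (P (keep I D K') l) =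
      (1 - X : ℤ⟦X⟧) ^ D.card * (t ^ (D.card - K'.card) *
        nrm t (dd (keep I D K') J) (P (keep I D K') l)) := by
    intro K' hK'
    have h5 : K'.card ≤ D.card := Finset.card_le_card (Finset.mem_powerset.1 hK')
    have h8 : (1 - X : ℤ⟦X⟧) ^ D.card = (1 - X) ^ K'.card * (1 - X) ^ (D.card - K'.card) := by
      rw [← pow_add, Nat.add_sub_of_le h5]
    have h9 : (X : ℤ⟦X⟧) ^ (D.card - K'.card) =
        (1 - X) ^ (D.card - K'.card) * t ^ (D.card - K'.card) := by
      rw [← mul_pow, ht1]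
    rw [h8, h9]
    ring
  rw [Finset.sum_congr rfl h7, ← Finset.mul_sum, h2]
  by_cases hl : l = none
  · rw [if_pos hl, if_pos hl]
    have h10 : dd I J = (dd I J - D.card) + ((D.card - 1) + 1) := by omega
    have h11 : nrm t (dd I J) (Polynomial.X ^ (dd I J - D.card) *
        (Polynomial.X + 1 : Polynomial ℤ) ^ (D.card - 1)) =
        t ^ 1 * nrm t (D.card - 1) ((Polynomial.X + 1 : Polynomial ℤ) ^ (D.card - 1)) := by
      have h12 : ((Polynomial.X + 1 : Polynomial ℤ) ^ (D.card - 1)).natDegree ≤ D.card - 1 := by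
        refine Polynomial.natDegree_pow_le.trans ?_
        have h13 : (Polynomial.X + 1 : Polynomial ℤ).natDegree ≤ 1 := by
          have := Polynomial.natDegree_X_add_C (1 : ℤ)
          rw [Polynomial.C_1] at this
          exact this.le
        calc (D.card - 1) * (Polynomial.X + 1 : Polynomial ℤ).natDegree ≤ (D.card - 1) * 1 :=
              Nat.mul_le_mul_left _ h13
          _ = _ := mul_one _
      have h14 := nrm_shift t (dd I J - D.card) (D.card - 1) 1
        ((Polynomial.X + 1 : Polynomial ℤ) ^ (D.card - 1)) h12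
      rw [← h10] at h14
      exact h14
    rw [h11, nrm_add_one_pow, pow_one]
    have h15 : (1 - X : ℤ⟦X⟧) ^ D.card = (1 - X) * (1 - X) ^ (D.card - 1) := by
      rw [← pow_succ', Nat.sub_add_cancel hc1]
    rw [h15]
    have h16 : (1 - X : ℤ⟦X⟧) ^ (D.card - 1) * (1 + t) ^ (D.card - 1) = 1 := by
      rw [← mul_pow, ht2, one_pow]
    linear_combination (1 - X) * t * h16 + ht1
  · rw [if_neg hl, if_neg hl, nrm_zero, mul_zero]

end Pool.Agent.GEN.H41
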