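import Pool.Agent.GEN.StmtsU

/-! Row VAN of squad GEN. -/

set_option autoImplicit false

namespace Pool.Agent.GEN.H41

open MvPolynomial

theorem van : VanStmt := by
  intro σ K _ _ _ G hG c q hdp hq
  classical
  obtain ⟨n₀, hn₀⟩ := hq
  obtain ⟨Q, hQ⟩ : ∃ Q : Polynomial (MvPolynomial σ K), Q = ∑ m ∈ q.support,
      Polynomial.monomial (m none) (monomial (xp m) (coeff m q)) := ⟨_, rfl⟩
  have hact : ∀ (l : K) (w : MvPolynomial σ K), act l w q = Q.eval (C l) * w := by
    intro l w
    conv_lhs => rw [q.as_sum]
    rw [map_sum, hQ, Polynomial.eval_finsetSum, Finset.sum_mul]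
    refine Finset.sum_congr rfl fun m hm => ?_
    rw [act_monomial, hdp m hm, Polynomial.eval_monomial]
    have h1 : dE (0 : σ →₀ ℕ) w = w := by
      rw [dE, map_zero, Multiset.toList_zero]
      rfl
    have h2 : (monomial (xp m) (coeff m q) : MvPolynomial σ K)
        = C (coeff m q) * monomial (xp m) 1 := by
      rw [C_mul_monomial, mul_one]
    rw [h1, h2, C_pow]
    ring
  have hw : ∀ n : ℕ, pw G c n ≠ 0 := fun n => pow_ne_zero _ hG
  have hroot : ∀ n : ℕ, n₀ ≤ n → Q.IsRoot (C (n : K)) := by
    intro n hn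
    have h := hn₀ n hn
    rw [hact] at h
    exact (mul_eq_zero.mp h).resolve_right (hw n)
  have hQ0 : Q = 0 := by
    refine Polynomial.eq_zero_of_infinite_isRoot Q ?_
    refine Set.Infinite.mono (s := Set.range fun n : ℕ => (C ((n + n₀ : ℕ) : K) : MvPolynomial σ K))
      ?_ (Set.infinite_range_of_injective ?_)
    · rintro _ ⟨n, rfl⟩
      exact hroot (n + n₀) (Nat.le_add_left _ _)
    · intro a b hab
      have h1 := C_injective σ K hab
      have h2 : a + n₀ = b + n₀ := by exact_mod_cast h1
      omega
  by_contra hne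
  obtain ⟨m, hm⟩ := MvPolynomial.support_nonempty.mpr hne
  have h1 : (Q.coeff (m none)).coeff (xp m) = 0 := by rw [hQ0]; simp
  rw [hQ, Polynomial.finsetSum_coeff, coeff_sum, Finset.sum_eq_single m] at h1
  · rw [Polynomial.coeff_monomial, if_pos rfl, coeff_monomial, if_pos rfl] at h1
    exact (mem_support_iff.mp hm) h1
  · intro m' hm' hmm
    rw [Polynomial.coeff_monomial]
    split_ifs with h2
    · rw [coeff_monomial, if_neg]
      intro h3
      apply hmm
      ext y
      rcases y with _ | (i | i)
      · exact h2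
      · have := DFunLike.congr_fun h3 i
        rwa [xp_apply, xp_apply] at this
      · have h4 := DFunLike.congr_fun (hdp m hm) i
        have h5 := DFunLike.congr_fun (hdp m' hm') i
        rw [dp_apply] at h4 h5
        rw [h4, h5]
    · exact coeff_zero _
  · intro h; exact absurd hm h

end Pool.Agent.GEN.H41
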