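import Pool.Agent.GEN.StmtsPT

/-!
# Squad GEN, block PT, row WCB: contraction of the stable sets
-/

set_option autoImplicit false

namespace Pool.Agent.GEN.H41

open Finset Pool.Agent.Helper6_Mono Pool.Agent.Helper30_Simp Pool.Agent.Helper30_Simp2
  Pool.Agent.GEN Pool.Agent.GEN.PT
open scoped Classical

section wcb

variable {σ : Type} [Fintype σ]

/-- the union of the circuits contained in `Q` -/
noncomputable def uC (I : Finset (σ →₀ ℕ)) (P : σ → Prop) (Q : Finset σ) : Finset σ :=
  univ.filter fun i => ∃ C, CircP I P C ∧ C ⊆ Q ∧ i ∈ C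

theorem mem_uC {I : Finset (σ →₀ ℕ)} {P : σ → Prop} {Q : Finset σ} {i : σ} :
    i ∈ uC I P Q ↔ ∃ C, CircP I P C ∧ C ⊆ Q ∧ i ∈ C := by
  unfold uC
  rw [Finset.mem_filter]
  exact ⟨fun h => h.2, fun h => ⟨Finset.mem_univ _, h⟩⟩

theorem uC_sub (I : Finset (σ →₀ ℕ)) (P : σ → Prop) (Q : Finset σ) : uC I P Q ⊆ Q := by
  intro i hi
  obtain ⟨C, _, hC, hiC⟩ := mem_uC.mp hi
  exact hC hiC

theorem uC_mono (I : Finset (σ →₀ ℕ)) (P : σ → Prop) {Q Q' : Finset σ} (h : Q ⊆ Q') :
    uC I P Q ⊆ uC I P Q' := by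
  intro i hi
  obtain ⟨C, h1, hC, hiC⟩ := mem_uC.mp hi
  exact mem_uC.mpr ⟨C, h1, hC.trans h, hiC⟩

omit [Fintype σ] in
/-- every weak stable set with variables in `P` contains a circuit -/
theorem exists_circ (I : Finset (σ →₀ ℕ)) (P : σ → Prop) (K : Finset σ)
    (hP : ∀ j ∈ K, P j) (hK : KS I K) : ∃ C, CircP I P C ∧ C ⊆ K := by
  induction K using Finset.strongInduction with
  | H K ih =>
    by_cases h : ∃ C' : Finset σ, C' ⊂ K ∧ KS I C'
    · obtain ⟨C', h1, h2⟩ := h
      obtain ⟨C, h3, h4⟩ := ih C' h1 (fun j hj => hP j (h1.1 hj)) h2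
      exact ⟨C, h3, h4.trans h1.1⟩
    · push Not at h
      exact ⟨K, ⟨hP, hK, h⟩, le_refl _⟩

theorem wcb : WcbStmt := by
  intro σ _ I P κ hκP hκ hiso
  refine ⟨uC I P, fun Q => uC I P Q ∪ κ, ?_, ?_⟩
  · intro Q hQ
    obtain ⟨hQP, hQs, K, hKQ, hK⟩ := hQ
    obtain ⟨C, hC, hCK⟩ := exists_circ I P K (fun j hj => hQP j (hKQ hj)) hK
    have hCa : C ⊆ uC I P Q := fun i hi => mem_uC.mpr ⟨C, hC, hCK.trans hKQ, hi⟩
    have hsumle : ∀ S S' : Finset σ, S ⊆ S' → ∀ α : σ →₀ ℕ, ∑ j ∈ S, α j ≤ ∑ j ∈ S', α j :=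
      fun S S' h α => Finset.sum_le_sum_of_subset h
    have haP : ∀ j ∈ uC I P Q, P j := fun j hj => hQP j (uC_sub I P Q hj)
    have haS : Stab I (uC I P Q) := by
      refine ⟨hC.2.1.1.1.mono hCa, ?_, ?_⟩
      · intro α hα
        exact (hsumle _ _ (uC_sub I P Q) α).trans (hQs.2.1 α hα)
      · intro j hj
        exact hQs.2.2 j (uC_sub I P Q hj)
    refine ⟨⟨haP, haS, C, hCa, hC.2.1⟩, ⟨?_, ⟨?_, ?_, ?_⟩, κ, subset_union_right, hκ⟩,
      uC_sub I P Q, subset_union_left, subset_union_right⟩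
    · intro j hj
      rcases Finset.mem_union.mp hj with h | h
      · exact haP j h
      · exact hκP j h
    · exact hκ.1.1.mono subset_union_right
    · intro α hα
      by_cases hex : ∃ i ∈ κ, α i ≠ 0
      · obtain ⟨i, hi, hαi⟩ := hex
        have hone : ∀ j ∈ uC I P Q ∪ κ, j ≠ i → α j = 0 := by
          intro j hj hji
          have hex2 : ∃ S : Finset σ, i ∈ S ∧ j ∈ S ∧ ∑ j ∈ S, α j ≤ 1 := by
            rcases Finset.mem_union.mp hj with h | h
            · obtain ⟨C', h1, _, h3⟩ := mem_uC.mp h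
              exact ⟨κ ∪ C', Finset.mem_union_left _ hi, Finset.mem_union_right _ h3,
                (hiso C' h1).2.1 α hα⟩
            · exact ⟨κ, hi, h, hκ.1.2.1 α hα⟩
          obtain ⟨S, hiS, hjS, hS⟩ := hex2
          have h4 : α i + α j ≤ ∑ j ∈ S, α j := by
            have h5 : ∑ k ∈ ({i, j} : Finset σ), α k ≤ ∑ j ∈ S, α j := by
              refine hsumle _ _ ?_ α
              intro k hk
              rw [Finset.mem_insert, Finset.mem_singleton] at hk
              rcases hk with rfl | rfl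
              · exact hiS
              · exact hjS
            rwa [Finset.sum_pair (Ne.symm hji)] at h5
          omega
        have hi1 : α i ≤ 1 := by
          have h5 := Finset.single_le_sum (f := fun j => α j) (fun _ _ => Nat.zero_le _) hi
          exact h5.trans (hκ.1.2.1 α hα)
        rw [Finset.sum_eq_single i (fun j hj hji => hone j hj hji)
          (fun h => absurd (Finset.mem_union_right _ hi) h)]
        exact hi1
      · push Not at hex
        have h5 : ∑ j ∈ uC I P Q ∪ κ, α j = ∑ j ∈ uC I P Q, α j := by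
          symm
          refine Finset.sum_subset subset_union_left ?_
          intro j hj hj'
          rcases Finset.mem_union.mp hj with h | h
          · exact absurd h hj'
          · exact hex j h
        rw [h5]
        exact haS.2.1 α hα
    · intro j hj
      rcases Finset.mem_union.mp hj with h | h
      · exact haS.2.2 j h
      · exact hκ.1.2.2 j h
  · intro Q Q' h
    exact ⟨uC_mono I P h, Finset.union_subset_union_left (uC_mono I P h)⟩

end wcb

end Pool.Agent.GEN.H41
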